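import Pool.Agent.H63.WT.TC
import Pool.Agent.H34.N6.Lib

/-!
# The norm formula for transfers
-/

set_option autoImplicit false

open Polynomial Matrix Pool.Agent.H32.QC Pool.Agent.H63.WT Pool.Agent.H34.N6

namespace Pool.Agent.H35.WT

section matrices

variable {F : Type} [Field F]

/-- change of the spanning family -/
theorem gram_change {κ ι : Type} [Fintype κ] [DecidableEq κ] [Fintype ι]
    [DecidableEq ι] (hCLS : T_CLS) (h2 : (2 : F) ≠ 0) (hc : Fintype.card κ = Fintype.card ι)
    (G : Matrix κ κ F) (P : Matrix κ ι F) (h : SN (Pᵀ * G * P)) :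
    SN G ∧ cls G = cls (Pᵀ * G * P) := by
  set Γ : Matrix ι ι F := Pᵀ * G * P with hΓ
  have hdet : IsUnit Γ.det := isUnit_iff_ne_zero.2 h.2
  set V : Matrix ι κ F := Γ⁻¹ * (Pᵀ * G) with hV
  have hVP : V * P = 1 := by
    rw [hV, Matrix.mul_assoc, ← hΓ, Matrix.nonsing_inv_mul _ hdet]
  have hPV : P * V = 1 := (Matrix.mul_eq_one_comm_of_equiv (Fintype.card_eq.mp hc.symm).some).1 hVP
  obtain ⟨h3, h4⟩ := (hCLS F h2).2.2.1 ι κ Γ V P h hVP hPV
  have h5 : Vᵀ * Γ * V = G := by
    have h6 : Vᵀ * Γ * V = (P * V)ᵀ * G * (P * V) := by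
      rw [Matrix.transpose_mul P V, hΓ]
      simp only [Matrix.mul_assoc]
    rw [h6, hPV, Matrix.transpose_one, Matrix.one_mul, Matrix.mul_one]
  rw [h5] at h3 h4
  exact ⟨h3, h4⟩

theorem gram_eq {M κ ι : Type} [CommRing M] [Fintype κ] [Fintype ι] (L : M → F)
    (β : κ → M) (γ : ι → M) (P : Matrix κ ι F)
    (hP : ∀ u m, L (γ u * m) = ∑ k, P k u * L (β k * m)) :
    Pᵀ * (of fun k l => L (β k * β l)) * P = of fun u v => L (γ u * γ v) := by
  ext u v
  have h1 : ∀ l, (Pᵀ * (of fun k l => L (β k * β l))) u l = L (γ u * β l) := by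
    intro l
    rw [hP u (β l), Matrix.mul_apply]
    rfl
  rw [Matrix.mul_apply]
  have h2 : L (γ u * γ v) = ∑ l, P l v * L (γ u * β l) := by
    rw [mul_comm, hP v (γ u)]
    apply Finset.sum_congr rfl
    intro l _
    rw [mul_comm (γ u)]
  change _ = L (γ u * γ v)
  rw [h2]
  apply Finset.sum_congr rfl
  intro l _
  rw [h1 l, mul_comm]

theorem met_of {κ σ : Type} [Fintype κ] [DecidableEq κ] [Fintype σ] (A : Matrix κ κ F)
    (v : σ → κ → F) (hli : LinearIndependent F v) (hiso : ∀ i j, v i ⬝ᵥ (A *ᵥ v j) = 0)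
    (hc : Fintype.card κ = 2 * Fintype.card σ) : Met A := by
  refine ⟨Fintype.card σ, hc, fun i => v ((Fintype.equivFin σ).symm i),
    hli.comp _ (Equiv.injective _), fun i j => hiso _ _⟩

theorem sn_blocks {κ ι : Type} [Fintype κ] [DecidableEq κ] [Fintype ι]
    [DecidableEq ι] {A : Matrix κ κ F} {B : Matrix ι ι F} (hA : SN A) (hB : SN B) :
    SN (fromBlocks A 0 0 B) := by
  refine ⟨?_, ?_⟩
  · have h1 := hA.1
    have h2 := hB.1
    unfold Matrix.IsSymm at h1 h2 ⊢
    rw [fromBlocks_transpose, h1, h2, Matrix.transpose_zero, Matrix.transpose_zero]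
  · rw [det_fromBlocks_zero₂₁]
    exact mul_ne_zero hA.2 hB.2

theorem sn_neg {κ : Type} [Fintype κ] [DecidableEq κ] {A : Matrix κ κ F} (hA : SN A) :
    SN (-A) := by
  refine ⟨?_, ?_⟩
  · have h1 := hA.1
    unfold Matrix.IsSymm at h1 ⊢
    rw [Matrix.transpose_neg, h1]
  · rw [Matrix.det_neg]
    exact mul_ne_zero (pow_ne_zero _ (neg_ne_zero.2 one_ne_zero)) hA.2

end matrices

section functional

variable {F : Type} [Field F]

/-- the top coefficient modulo `T`, coefficients in `F[X]` -/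
noncomputable def tau (T : F[X]) (W : F[X][X]) : F[X] :=
  (W %ₘ (T.map (C : F →+* F[X]))).coeff (T.natDegree - 1)

/-- the modulus of degree `n + 1` -/
noncomputable def Qm (T : F[X]) : F[X][X] := (X - C X) * T.map (C : F →+* F[X])

/-- the top coefficient modulo `T (Y - X)` -/
noncomputable def qh (T : F[X]) (W : F[X][X]) : F[X] := (W %ₘ Qm T).coeff T.natDegree

theorem qm_monic {T : F[X]} (hT : T.Monic) : (Qm T).Monic :=
  (monic_X_sub_C X).mul (hT.map _)

theorem qm_natDegree {T : F[X]} (hT : T.Monic) : (Qm T).natDegree = T.natDegree + 1 := by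
  unfold Qm
  rw [(monic_X_sub_C (X : F[X])).natDegree_mul (hT.map _), natDegree_X_sub_C,
    hT.natDegree_map, add_comm]

theorem tau_add (T : F[X]) (V W : F[X][X]) : tau T (V + W) = tau T V + tau T W := by
  unfold tau
  rw [add_modByMonic, coeff_add]

theorem tau_C_mul (T : F[X]) (g : F[X]) (W : F[X][X]) : tau T (C g * W) = g * tau T W := by
  unfold tau
  rw [← smul_eq_C_mul, smul_modByMonic, coeff_smul, smul_eq_mul]

theorem tau_sub (T : F[X]) (V W : F[X][X]) : tau T (V - W) = tau T V - tau T W := by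
  unfold tau
  rw [sub_modByMonic, coeff_sub]

theorem tau_mul (T : F[X]) (hT : T.Monic) (W : F[X][X]) :
    tau T (T.map (C : F →+* F[X]) * W) = 0 := by
  unfold tau
  rw [(modByMonic_eq_zero_iff_dvd (hT.map _)).2 (dvd_mul_right _ _), coeff_zero]

theorem tau_X_pow (T : F[X]) (hT : T.Monic) (k : ℕ) :
    tau T (X ^ k) = C (lam T (X ^ k)) := by
  unfold tau lam
  rw [← coeff_map, map_modByMonic _ hT, Polynomial.map_pow, map_X]

theorem qh_add (T : F[X]) (V W : F[X][X]) : qh T (V + W) = qh T V + qh T W := by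
  unfold qh
  rw [add_modByMonic, coeff_add]

theorem qh_C_mul (T : F[X]) (g : F[X]) (W : F[X][X]) : qh T (C g * W) = g * qh T W := by
  unfold qh
  rw [← smul_eq_C_mul, smul_modByMonic, coeff_smul, smul_eq_mul]

theorem qh_lin {T : F[X]} (hT : T.Monic) (hn : 0 < T.natDegree) (W : F[X][X]) :
    qh T ((X - C X) * W) = tau T W := by
  have hm : (T.map (C : F →+* F[X])).Monic := hT.map _
  have hd : (T.map (C : F →+* F[X])).natDegree = T.natDegree := hT.natDegree_map _
  have hne : T.map (C : F →+* F[X]) ≠ 1 := by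
    intro h
    rw [h, natDegree_one] at hd
    omega
  have hlt : (W %ₘ (T.map (C : F →+* F[X]))).natDegree < T.natDegree := by
    rw [← hd]
    exact natDegree_modByMonic_lt _ hm hne
  have h1 : ((X - C X) * W) %ₘ Qm T = (X - C X) * (W %ₘ (T.map (C : F →+* F[X]))) := by
    refine (div_modByMonic_unique (W /ₘ (T.map (C : F →+* F[X]))) _ (qm_monic hT)
      ⟨?_, ?_⟩).2
    · have h2 := modByMonic_add_div W (T.map (C : F →+* F[X]))
      unfold Qm
      calc (X - C X) * (W %ₘ (T.map (C : F →+* F[X]))) +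
            (X - C X) * T.map (C : F →+* F[X]) * (W /ₘ (T.map (C : F →+* F[X]))) =
          (X - C X) * (W %ₘ (T.map (C : F →+* F[X])) +
            T.map (C : F →+* F[X]) * (W /ₘ (T.map (C : F →+* F[X])))) := by ring
        _ = (X - C X) * W := by rw [h2]
    · apply degree_lt_degree
      rw [qm_natDegree hT]
      refine lt_of_le_of_lt natDegree_mul_le ?_
      rw [natDegree_X_sub_C]
      omega
  unfold qh tau
  rw [h1, sub_mul, coeff_sub, coeff_C_mul]
  obtain ⟨m, hm'⟩ : ∃ m, T.natDegree = m + 1 := ⟨T.natDegree - 1, by omega⟩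
  rw [hm', coeff_X_mul, Nat.add_sub_cancel]
  rw [hm'] at hlt
  rw [coeff_eq_zero_of_natDegree_lt hlt, mul_zero, sub_zero]

theorem qh_mul {T : F[X]} (hT : T.Monic) (W : F[X][X]) :
    qh T (T.map (C : F →+* F[X]) * W) = eval X W := by
  have hm : (T.map (C : F →+* F[X])).Monic := hT.map _
  have hd : (T.map (C : F →+* F[X])).natDegree = T.natDegree := hT.natDegree_map _
  have h1 : (T.map (C : F →+* F[X]) * W) %ₘ Qm T = T.map (C : F →+* F[X]) * C (eval X W) := by
    refine (div_modByMonic_unique (W /ₘ (X - C X)) _ (qm_monic hT) ⟨?_, ?_⟩).2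
    · have h2 := modByMonic_add_div W (X - C (X : F[X]))
      rw [modByMonic_X_sub_C_eq_C_eval] at h2
      unfold Qm
      calc T.map (C : F →+* F[X]) * C (eval X W) +
            (X - C X) * T.map (C : F →+* F[X]) * (W /ₘ (X - C X)) =
          T.map (C : F →+* F[X]) * (C (eval X W) + (X - C X) * (W /ₘ (X - C X))) := by ring
        _ = T.map (C : F →+* F[X]) * W := by rw [h2]
    · apply degree_lt_degree
      rw [qm_natDegree hT]
      refine lt_of_le_of_lt natDegree_mul_le ?_
      rw [natDegree_C, hd]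
      omega
  unfold qh
  rw [h1, coeff_mul_C, ← hd, hm.coeff_natDegree, one_mul]

theorem qh_low {T : F[X]} (hT : T.Monic) (g : F[X]) {k : ℕ} (hk : k < T.natDegree) :
    qh T (C g * X ^ k) = 0 := by
  rw [qh_C_mul]
  unfold qh
  rw [(modByMonic_eq_self_iff (qm_monic hT)).2, coeff_X_pow, if_neg (by omega), mul_zero]
  apply degree_lt_degree
  rw [qm_natDegree hT, natDegree_X_pow]
  omega

theorem qh_top {T : F[X]} (hT : T.Monic) (g : F[X]) :
    qh T (C g * X ^ T.natDegree) = g := by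
  rw [qh_C_mul]
  unfold qh
  rw [(modByMonic_eq_self_iff (qm_monic hT)).2, coeff_X_pow, if_pos rfl, mul_one]
  apply degree_lt_degree
  rw [qm_natDegree hT, natDegree_X_pow]
  omega

/-- the functional -/
noncomputable def Lf (A h T : F[X]) (W : F[X][X]) : F := lam A (h * qh T W)

theorem Lf_add (A h T : F[X]) (V W : F[X][X]) : Lf A h T (V + W) = Lf A h T V + Lf A h T W := by
  unfold Lf
  rw [qh_add, mul_add, lam_add]

theorem Lf_sum {ι : Type} (s : Finset ι) (A h T : F[X]) (g : ι → F[X][X]) :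
    Lf A h T (∑ i ∈ s, g i) = ∑ i ∈ s, Lf A h T (g i) := by
  classical
  induction s using Finset.induction_on with
  | empty =>
    rw [Finset.sum_empty, Finset.sum_empty]
    unfold Lf qh
    rw [zero_modByMonic, coeff_zero, mul_zero, lam_zero]
  | insert a s ha ih => rw [Finset.sum_insert ha, Finset.sum_insert ha, Lf_add, ih]

theorem Lf_smul (A h T : F[X]) (c : F) (W : F[X][X]) :
    Lf A h T (C (C c) * W) = c * Lf A h T W := by
  unfold Lf
  rw [qh_C_mul, mul_left_comm, lam_C_mul]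

theorem Lf_congr {A : F[X]} (hA : A.Monic) (h T : F[X]) (g g' : F[X]) (hg : A ∣ g - g')
    (W : F[X][X]) : Lf A h T (C g * W) = Lf A h T (C g' * W) := by
  unfold Lf
  rw [qh_C_mul, qh_C_mul]
  apply lam_congr hA
  obtain ⟨u, hu⟩ := hg
  refine ⟨h * u * qh T W, ?_⟩
  linear_combination (h * qh T W) * hu

theorem sum_coeff {R : Type} [CommRing R] (W : R[X]) (N : ℕ) (hW : W.natDegree < N) :
    ∑ j : Fin N, C (W.coeff (j : ℕ)) * X ^ (j : ℕ) = W := by
  conv_rhs => rw [W.as_sum_range_C_mul_X_pow' hW]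
  exact Fin.sum_univ_eq_sum_range (fun j => C (W.coeff j) * X ^ j) N

theorem mod_sum {A : F[X]} (hA : A.Monic) (g : F[X]) :
    ∑ i : Fin A.natDegree, C ((g %ₘ A).coeff (i : ℕ)) * X ^ (i : ℕ) = g %ₘ A := by
  by_cases hA1 : A = 1
  · subst hA1
    rw [modByMonic_one]
    simp
  · exact sum_coeff _ _ (natDegree_modByMonic_lt g hA hA1)

theorem Lf_mod {A : F[X]} (hA : A.Monic) (h T g : F[X]) (W : F[X][X]) :
    Lf A h T (C g * W) = ∑ i : Fin A.natDegree,
      (g %ₘ A).coeff (i : ℕ) * Lf A h T (C (X ^ (i : ℕ)) * W) := by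
  have h5 := modByMonic_add_div g A
  have h2 : A ∣ g - (g %ₘ A) := ⟨g /ₘ A, by linear_combination (-1 : F[X]) * h5⟩
  have h3 : C (g %ₘ A) * W = ∑ i : Fin A.natDegree,
      C (C ((g %ₘ A).coeff (i : ℕ))) * (C (X ^ (i : ℕ)) * W) := by
    conv_lhs => rw [← mod_sum hA g]
    rw [map_sum, Finset.sum_mul]
    apply Finset.sum_congr rfl
    intro i _
    rw [C_mul, mul_assoc]
  rw [Lf_congr hA h T _ _ h2, h3, Lf_sum]
  apply Finset.sum_congr rfl
  intro i _
  rw [Lf_smul]

/-- the monomials span modulo the radical -/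
theorem Lf_span {A T : F[X]} (hA : A.Monic) (h : F[X]) (W : F[X][X])
    (hW : W.natDegree ≤ T.natDegree) (m : F[X][X]) :
    Lf A h T (W * m) = ∑ k : Fin A.natDegree × Fin (T.natDegree + 1),
      ((W.coeff (k.2 : ℕ)) %ₘ A).coeff (k.1 : ℕ) *
        Lf A h T (C (X ^ (k.1 : ℕ)) * X ^ (k.2 : ℕ) * m) := by
  have h1 : W * m = ∑ j : Fin (T.natDegree + 1), C (W.coeff (j : ℕ)) * (X ^ (j : ℕ) * m) := by
    conv_lhs => rw [← sum_coeff W (T.natDegree + 1) (by omega)]
    rw [Finset.sum_mul]
    apply Finset.sum_congr rfl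
    intro j _
    rw [mul_assoc]
  rw [h1, Lf_sum, Fintype.sum_prod_type_right]
  apply Finset.sum_congr rfl
  intro j _
  rw [Lf_mod hA]
  apply Finset.sum_congr rfl
  intro i _
  rw [mul_assoc (C (X ^ (i : ℕ)))]

end functional

section main

variable {F : Type} [Field F]

/-- the monomials -/
noncomputable def mon (F : Type) [Field F] (i j : ℕ) : F[X][X] := C (X ^ i) * X ^ j

theorem mon_mul (i j i' j' : ℕ) : mon F i j * mon F i' j' = mon F (i + i') (j + j') := by
  unfold mon
  rw [pow_add, pow_add, C_mul]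
  ring

theorem Lf_low (A h : F[X]) {T : F[X]} (hT : T.Monic) (i j : ℕ) (hj : j < T.natDegree) :
    Lf A h T (mon F i j) = 0 := by
  unfold Lf mon
  rw [qh_low hT _ hj, mul_zero, lam_zero]

theorem Lf_top (A h : F[X]) {T : F[X]} (hT : T.Monic) (i : ℕ) :
    Lf A h T (mon F i T.natDegree) = lam A (h * X ^ i) := by
  unfold Lf mon
  rw [qh_top hT]

theorem Lf_ll (A h : F[X]) {T : F[X]} (hT : T.Monic) (hn : 0 < T.natDegree)
    (i j i' j' : ℕ) : Lf A h T ((X - C X) * mon F i j * ((X - C X) * mon F i' j')) =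
      lam T (X ^ (j + j' + 1)) * lam A (h * X ^ (i + i')) -
        lam T (X ^ (j + j')) * lam A (h * X ^ (i + i' + 1)) := by
  have h1 : (X - C X) * mon F i j * ((X - C X) * mon F i' j') =
      (X - C X) * (C (X ^ (i + i')) * X ^ (j + j' + 1) -
        C (X ^ (i + i' + 1)) * X ^ (j + j')) := by
    have h2 := mon_mul (F := F) i j i' j'
    calc (X - C X) * mon F i j * ((X - C X) * mon F i' j') =
        (X - C X) * ((X - C X) * (mon F i j * mon F i' j')) := by ring
      _ = _ := by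
        rw [h2]
        unfold mon
        rw [pow_succ (X : F[X]) (i + i'), C_mul]
        ring
  rw [h1]
  unfold Lf
  rw [qh_lin hT hn, tau_sub, tau_C_mul, tau_C_mul, tau_X_pow T hT, tau_X_pow T hT]
  have h3 : h * (X ^ (i + i') * C (lam T (X ^ (j + j' + 1))) -
      X ^ (i + i' + 1) * C (lam T (X ^ (j + j')))) =
      C (lam T (X ^ (j + j' + 1))) * (h * X ^ (i + i')) -
        C (lam T (X ^ (j + j'))) * (h * X ^ (i + i' + 1)) := by ring
  rw [h3, lam_sub, lam_C_mul, lam_C_mul]

theorem Lf_lT (A h : F[X]) {T : F[X]} (hT : T.Monic) (hn : 0 < T.natDegree)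
    (i j i' : ℕ) :
    Lf A h T ((X - C X) * mon F i j * (T.map (C : F →+* F[X]) * C (X ^ i'))) = 0 := by
  have h1 : (X - C X) * mon F i j * (T.map (C : F →+* F[X]) * C (X ^ i')) =
      (X - C X) * (T.map (C : F →+* F[X]) * (mon F i j * C (X ^ i'))) := by ring
  rw [h1]
  unfold Lf
  rw [qh_lin hT hn, tau_mul T hT, mul_zero, lam_zero]

theorem Lf_TT (A h : F[X]) {T : F[X]} (hT : T.Monic) (i i' : ℕ) :
    Lf A h T (T.map (C : F →+* F[X]) * C (X ^ i) * (T.map (C : F →+* F[X]) * C (X ^ i'))) =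
      lam A (h * T * X ^ (i + i')) := by
  have h1 : T.map (C : F →+* F[X]) * C (X ^ i) * (T.map (C : F →+* F[X]) * C (X ^ i')) =
      T.map (C : F →+* F[X]) * (T.map (C : F →+* F[X]) * C (X ^ (i + i'))) := by
    rw [pow_add, C_mul]
    ring
  rw [h1]
  unfold Lf
  rw [qh_mul hT, eval_mul, eval_C, eval_map, eval₂_C_X, mul_assoc]

/-- the Gram matrix of the monomials -/
noncomputable def Gb (A h T : F[X]) :
    Matrix (Fin A.natDegree × Fin (T.natDegree + 1)) (Fin A.natDegree × Fin (T.natDegree + 1)) F :=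
  of fun k l => Lf A h T (mon F (k.1 : ℕ) (k.2 : ℕ) * mon F (l.1 : ℕ) (l.2 : ℕ))

theorem Gb_low (A h : F[X]) {T : F[X]} (hT : T.Monic)
    (k l : Fin A.natDegree × Fin (T.natDegree + 1))
    (hkl : (k.2 : ℕ) + (l.2 : ℕ) < T.natDegree) : Gb A h T k l = 0 := by
  unfold Gb
  rw [of_apply, mon_mul, Lf_low A h hT _ _ hkl]

theorem Gb_top (A h : F[X]) {T : F[X]} (hT : T.Monic)
    (k l : Fin A.natDegree × Fin (T.natDegree + 1))
    (hkl : (k.2 : ℕ) + (l.2 : ℕ) = T.natDegree) : Gb A h T k l = gm A h k.1 l.1 := by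
  unfold Gb gm
  rw [of_apply, mon_mul, hkl, Lf_top A h hT]

theorem single_dot {κ : Type} [Fintype κ] [DecidableEq κ] (A : Matrix κ κ F) (k l : κ) :
    (Pi.single k (1 : F)) ⬝ᵥ (A *ᵥ (Pi.single l (1 : F))) = A k l := by
  rw [Matrix.mulVec_single_one, single_one_dotProduct]
  rfl

theorem single_li {κ σ : Type} [Fintype κ] [DecidableEq κ] (e : σ → κ)
    (he : Function.Injective e) :
    LinearIndependent F (fun x => (Pi.single (e x) (1 : F) : κ → F)) := by
  have h := (Pi.basisFun F κ).linearIndependent.comp e he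
  have h2 : (fun x => (Pi.single (e x) (1 : F) : κ → F)) = ⇑(Pi.basisFun F κ) ∘ e := by
    funext x
    rw [Function.comp_apply, Pi.basisFun_apply]
  rw [h2]
  exact h

theorem cls_odd (hCLS : T_CLS) (h2 : (2 : F) ≠ 0) (A h : F[X]) {T : F[X]} (hT : T.Monic)
    (hSN : SN (Gb A h T)) (ho : Odd T.natDegree) : cls (Gb A h T) = 0 := by
  obtain ⟨r, hr⟩ := ho
  apply (hCLS F h2).1 _ _ hSN
  refine met_of _ (σ := Fin A.natDegree × Fin (r + 1))
    (fun x => Pi.single (x.1, ⟨(x.2 : ℕ), by have := x.2.2; omega⟩) (1 : F)) ?_ ?_ ?_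
  · apply single_li
    rintro ⟨a, b⟩ ⟨c, d⟩ hx
    simp only [Prod.mk.injEq, Fin.mk.injEq] at hx
    exact Prod.ext hx.1 (Fin.ext hx.2)
  · intro x y
    rw [single_dot]
    apply Gb_low A h hT
    have h3 := x.2.2
    have h4 := y.2.2
    simp only
    omega
  · simp only [Fintype.card_prod, Fintype.card_fin]
    rw [hr]
    ring

theorem cls_even (hCLS : T_CLS) (hGDT : T_GDT) (h2 : (2 : F) ≠ 0) {A h : F[X]} {T : F[X]}
    (hA : A.Monic) (hT : T.Monic) (hcop : IsCoprime A h)
    (hSN : SN (Gb A h T)) (he : Even T.natDegree) : cls (Gb A h T) = S A h := by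
  obtain ⟨r, hr⟩ := he
  have hg : SN (gm A h) := ⟨(hGDT F A hA).2.1 h, ((hGDT F A hA).2.2.1 h).2 hcop⟩
  have hng : SN (-gm A h) := sn_neg hg
  have hb : SN (fromBlocks (Gb A h T) 0 0 (-gm A h)) := sn_blocks hSN hng
  have h0 : cls (fromBlocks (Gb A h T) 0 0 (-gm A h)) = 0 := by
    apply (hCLS F h2).1 _ _ hb
    refine met_of _ (σ := Fin A.natDegree × Fin (r + 1))
      (fun x => Sum.elim (Pi.single (x.1, ⟨(x.2 : ℕ), by have := x.2.2; omega⟩) (1 : F))
        (if (x.2 : ℕ) = r then Pi.single x.1 (1 : F) else 0)) ?_ ?_ ?_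
    · have h1 := single_li (F := F)
        (fun x : Fin A.natDegree × Fin (r + 1) =>
          ((x.1, ⟨(x.2 : ℕ), by have := x.2.2; omega⟩) : Fin A.natDegree × Fin (T.natDegree + 1)))
        (by
          rintro ⟨a, b⟩ ⟨c, d⟩ hx
          simp only [Prod.mk.injEq, Fin.mk.injEq] at hx
          exact Prod.ext hx.1 (Fin.ext hx.2))
      refine LinearIndependent.of_comp (LinearMap.funLeft F F Sum.inl) ?_
      convert h1 using 1
      funext x
      rfl
    · intro x y
      have hx := x.2.2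
      have hy := y.2.2
      rw [fromBlocks_mulVec]
      simp only [Matrix.zero_mulVec, add_zero, zero_add, Sum.elim_comp_inl, Sum.elim_comp_inr]
      rw [sumElim_dotProduct_sumElim, single_dot]
      by_cases hxr : (x.2 : ℕ) = r
      · by_cases hyr : (y.2 : ℕ) = r
        · rw [if_pos hxr, if_pos hyr, single_dot, Matrix.neg_apply,
            Gb_top A h hT _ _ (by simp only; omega)]
          simp
        · rw [if_neg hyr, Matrix.mulVec_zero, dotProduct_zero, add_zero]
          apply Gb_low A h hT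
          simp only
          omega
      · rw [if_neg hxr, zero_dotProduct, add_zero]
        apply Gb_low A h hT
        simp only
        omega
    · simp only [Fintype.card_sum, Fintype.card_prod, Fintype.card_fin]
      rw [hr]
      ring
  rw [(hCLS F h2).2.1 _ _ _ _ hSN hng, (hCLS F h2).2.2.2.1 _ _ hg] at h0
  exact add_neg_eq_zero.1 h0

theorem key (hCLS : T_CLS) (hGDT : T_GDT) (h2 : (2 : F) ≠ 0) {A h T : F[X]}
    (hA : A.Monic) (hT : T.Monic) (hn : 0 < T.natDegree) (hAh : IsCoprime A h)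
    (hAT : IsCoprime A T) (a' : ℕ) (ha : a' = A.natDegree)
    (M : Matrix (Fin a' × Fin T.natDegree) (Fin a' × Fin T.natDegree) F) (hM : SN M)
    (hMe : ∀ x y, M x y =
      lam T (X ^ ((x.2 : ℕ) + (y.2 : ℕ))) * lam A (h * X ^ ((x.1 : ℕ) + (y.1 : ℕ) + 1)) -
        lam T (X ^ ((x.2 : ℕ) + (y.2 : ℕ) + 1)) * lam A (h * X ^ ((x.1 : ℕ) + (y.1 : ℕ)))) :
    cls M = S A (h * T) - if Odd T.natDegree then 0 else S A h := by
  have hgm : SN (gm A (h * T)) :=
    ⟨(hGDT F A hA).2.1 _, ((hGDT F A hA).2.2.1 _).2 (hAh.mul_right hAT)⟩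
  have hnM : SN (-M) := sn_neg hM
  let γ : (Fin a' × Fin T.natDegree) ⊕ Fin A.natDegree → F[X][X] :=
    Sum.elim (fun x => (X - C X) * mon F (x.1 : ℕ) (x.2 : ℕ))
      (fun i => T.map (C : F →+* F[X]) * C (X ^ (i : ℕ)))
  have hdeg : ∀ u, (γ u).natDegree ≤ T.natDegree := by
    rintro (x | i)
    · change ((X - C X) * mon F (x.1 : ℕ) (x.2 : ℕ)).natDegree ≤ _
      refine natDegree_mul_le.trans ?_
      rw [natDegree_X_sub_C]
      have h3 : (mon F (x.1 : ℕ) (x.2 : ℕ)).natDegree ≤ (x.2 : ℕ) := by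
        unfold mon
        exact natDegree_C_mul_X_pow_le _ _
      have h4 := x.2.2
      omega
    · change (T.map (C : F →+* F[X]) * C (X ^ (i : ℕ))).natDegree ≤ _
      refine natDegree_mul_le.trans ?_
      rw [natDegree_C, hT.natDegree_map, add_zero]
  let P : Matrix (Fin A.natDegree × Fin (T.natDegree + 1))
      ((Fin a' × Fin T.natDegree) ⊕ Fin A.natDegree) F :=
    of fun k u => (((γ u).coeff (k.2 : ℕ)) %ₘ A).coeff (k.1 : ℕ)
  have hPG : Pᵀ * Gb A h T * P = of fun u v => Lf A h T (γ u * γ v) := by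
    apply gram_eq (Lf A h T)
      (fun k : Fin A.natDegree × Fin (T.natDegree + 1) => mon F (k.1 : ℕ) (k.2 : ℕ)) γ P
    intro u m
    exact Lf_span hA h (γ u) (hdeg u) m
  have hbl : (of fun u v => Lf A h T (γ u * γ v) :
      Matrix ((Fin a' × Fin T.natDegree) ⊕ Fin A.natDegree)
        ((Fin a' × Fin T.natDegree) ⊕ Fin A.natDegree) F) =
      fromBlocks (-M) 0 0 (gm A (h * T)) := by
    ext u v
    rcases u with x | i <;> rcases v with y | j
    · change Lf A h T ((X - C X) * mon F (x.1 : ℕ) (x.2 : ℕ) *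
        ((X - C X) * mon F (y.1 : ℕ) (y.2 : ℕ))) = -M x y
      rw [Lf_ll A h hT hn, hMe x y]
      ring
    · exact Lf_lT A h hT hn _ _ _
    · change Lf A h T (T.map (C : F →+* F[X]) * C (X ^ (i : ℕ)) *
        ((X - C X) * mon F (y.1 : ℕ) (y.2 : ℕ))) = 0
      rw [mul_comm]
      exact Lf_lT A h hT hn _ _ _
    · exact Lf_TT A h hT _ _
  have hsn : SN (Pᵀ * Gb A h T * P) := by
    rw [hPG, hbl]
    exact sn_blocks hnM hgm
  obtain ⟨h5, h6⟩ := gram_change hCLS h2 (by
    simp only [Fintype.card_sum, Fintype.card_prod, Fintype.card_fin]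
    rw [ha]
    ring) (Gb A h T) P hsn
  rw [hPG, hbl, (hCLS F h2).2.1 _ _ _ _ hnM hgm, (hCLS F h2).2.2.2.1 _ _ hM] at h6
  have h7 : cls (Gb A h T) = if Odd T.natDegree then 0 else S A h := by
    split_ifs with ho
    · exact cls_odd hCLS h2 A h hT h5 ho
    · exact cls_even hCLS hGDT h2 hA hT hAh h5 (Nat.not_odd_iff_even.1 ho)
  rw [h7] at h6
  rw [h6]
  unfold S
  abel

end main

theorem pf_NFT (hCLS : T_CLS) (hGDT : T_GDT) (_hGMV : T_GMV) : T_NFT := by
  intro F E _ _ _ h2 T t hT hirr ht htop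
  have hint : IsIntegral F t := ⟨T, hT, by rwa [← aeval_def]⟩
  have hmin : minpoly F t = T := (minpoly.eq_of_irreducible_of_monic hirr ht hT).symm
  have hdim : (PowerBasis.ofAdjoinEqTop hint htop).dim = T.natDegree := by
    rw [PowerBasis.ofAdjoinEqTop_dim, hmin]
  have hn : 0 < T.natDegree := hirr.natDegree_pos
  obtain ⟨b, hb⟩ : ∃ b : Module.Basis (Fin T.natDegree) F E, ∀ i, b i = t ^ (i : ℕ) := by
    refine ⟨(PowerBasis.ofAdjoinEqTop hint htop).basis.reindex (finCongr hdim), ?_⟩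
    intro i
    rw [Module.Basis.reindex_apply, PowerBasis.basis_eq_pow, PowerBasis.ofAdjoinEqTop_gen]
    rfl
  have hsb : ∀ i : Fin T.natDegree, b.coord ⟨T.natDegree - 1, by omega⟩ (t ^ (i : ℕ)) =
      if (i : ℕ) + 1 = T.natDegree then 1 else 0 := by
    intro i
    rw [← hb i, Module.Basis.coord_apply, Module.Basis.repr_self, Finsupp.single_apply]
    by_cases h1 : (i : ℕ) + 1 = T.natDegree
    · rw [if_pos h1, if_pos (Fin.ext (by simp only; omega))]
    · rw [if_neg h1, if_neg]
      intro h3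
      have h4 := congrArg Fin.val h3
      simp only at h4
      omega
  refine ⟨b, b.coord ⟨T.natDegree - 1, by omega⟩, ?_, hb, hsb, ?_⟩
  · intro h1
    have h3 := hsb ⟨T.natDegree - 1, by omega⟩
    rw [h1, LinearMap.zero_apply, if_pos (by simp only; omega)] at h3
    exact zero_ne_one h3
  · intro f hf A h hA hAT hAh
    have hs : ∀ m : ℕ, b.coord ⟨T.natDegree - 1, by omega⟩ (t ^ m) = lam T (X ^ m) := by
      intro m
      have h3 : t ^ m = aeval t ((X : F[X]) ^ m %ₘ T) := by
        rw [aeval_modByMonic_eq_self_of_root ht, map_pow, aeval_X]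
      rw [h3, ← mod_sum hT, map_sum, map_sum]
      unfold lam
      rw [Finset.sum_eq_single ⟨T.natDegree - 1, by omega⟩]
      · rw [map_mul, aeval_C, map_pow, aeval_X, ← Algebra.smul_def, map_smul, hsb,
          if_pos (by simp only; omega), smul_eq_mul, mul_one]
      · intro i _ hi
        rw [map_mul, aeval_C, map_pow, aeval_X, ← Algebra.smul_def, map_smul, hsb, if_neg,
          smul_zero]
        intro h4
        apply hi
        apply Fin.ext
        simp only
        omega
      · intro h4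
        exact absurd (Finset.mem_univ _) h4
    have hcE : IsCoprime (A.map (algebraMap F E)) (X - C t) := by
      apply IsCoprime.symm
      rw [(irreducible_X_sub_C t).coprime_iff_not_dvd]
      intro h3
      have h4 : eval t (A.map (algebraMap F E)) = 0 := dvd_iff_isRoot.1 h3
      rw [eval_map, ← aeval_def] at h4
      obtain ⟨u, v, huv⟩ := hAT
      have h5 := congrArg (aeval t) huv
      rw [map_add, map_mul, map_mul, h4, ht, mul_zero, mul_zero, add_zero, map_one] at h5
      exact zero_ne_one h5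
    have h2E : (2 : E) ≠ 0 := by
      intro h3
      apply h2
      apply (algebraMap F E).injective
      rw [map_ofNat, h3, map_zero]
    have hkey : ∀ h : F[X], IsCoprime A h →
        f (S (A.map (algebraMap F E)) (h.map (algebraMap F E) * (X - C t))) =
          S A (h * T) - if Odd T.natDegree then 0 else S A h := by
      intro h hAh
      have hAE : (A.map (algebraMap F E)).Monic := hA.map _
      have hch : IsCoprime (A.map (algebraMap F E)) (h.map (algebraMap F E)) :=
        hAh.map (mapRingHom (algebraMap F E))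
      have hsn : SN (gm (A.map (algebraMap F E)) (h.map (algebraMap F E) * (X - C t))) :=
        ⟨(hGDT E _ hAE).2.1 _, ((hGDT E _ hAE).2.2.1 _).2 (hch.mul_right hcE)⟩
      obtain ⟨hM, hfM⟩ := hf _ _ hsn
      change f (cls (gm (A.map (algebraMap F E)) (h.map (algebraMap F E) * (X - C t)))) = _
      rw [hfM]
      refine key hCLS hGDT h2 hA hT hn hAh hAT (A.map (algebraMap F E)).natDegree
        (natDegree_map _) _ hM ?_
      intro x y
      have h3 : ∀ k : ℕ, lam (A.map (algebraMap F E))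
          (h.map (algebraMap F E) * (X - C t) * X ^ k) =
          algebraMap F E (lam A (h * X ^ (k + 1))) - t * algebraMap F E (lam A (h * X ^ k)) := by
        intro k
        have h4 : h.map (algebraMap F E) * (X - C t) * X ^ k =
            (h * X ^ (k + 1)).map (algebraMap F E) -
              C t * (h * X ^ k).map (algebraMap F E) := by
          rw [Polynomial.map_mul, Polynomial.map_mul, Polynomial.map_pow, Polynomial.map_pow,
            map_X]
          ring
        rw [h4, lam_sub, lam_C_mul, lam_map hA, lam_map hA]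
      change b.coord ⟨T.natDegree - 1, by omega⟩ (lam (A.map (algebraMap F E))
        (h.map (algebraMap F E) * (X - C t) * X ^ ((x.1 : ℕ) + (y.1 : ℕ))) *
          (b x.2 * b y.2)) = _
      rw [h3, hb, hb]
      have h5 : (algebraMap F E (lam A (h * X ^ ((x.1 : ℕ) + (y.1 : ℕ) + 1))) -
          t * algebraMap F E (lam A (h * X ^ ((x.1 : ℕ) + (y.1 : ℕ))))) *
          (t ^ (x.2 : ℕ) * t ^ (y.2 : ℕ)) =
          lam A (h * X ^ ((x.1 : ℕ) + (y.1 : ℕ) + 1)) • t ^ ((x.2 : ℕ) + (y.2 : ℕ)) -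
          lam A (h * X ^ ((x.1 : ℕ) + (y.1 : ℕ))) • t ^ ((x.2 : ℕ) + (y.2 : ℕ) + 1) := by
        rw [Algebra.smul_def, Algebra.smul_def]
        ring
      rw [h5, map_sub, map_smul, map_smul, hs, hs, smul_eq_mul, smul_eq_mul]
      ring
    have h1 := hkey h hAh
    have h3 := hkey 1 isCoprime_one_right
    rw [Polynomial.map_one, one_mul, one_mul] at h3
    rw [map_sub, h1, h3]
    split_ifs with ho
    · abel
    · unfold sy
      abel

end Pool.Agent.H35.WT
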