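import Pool.Agent.H38.WT.Targets

/-!
# Row CNL of the board `wt_modules` (MP_0cb3c0_co)
-/

set_option autoImplicit false

namespace Pool.Agent.H35.WT

open Pool.Agent.H38.WT

theorem gmono {m ℓ : ℕ} {g : ℕ → Set (Fin m)} (h : ∀ i, i + 1 < ℓ → g i ⊆ g (i + 1)) :
    ∀ i j, i ≤ j → j < ℓ → g i ⊆ g j := by
  intro i j hij
  induction j, hij using Nat.le_induction with
  | base => intro _; exact subset_rfl
  | succ j hij ih =>
    intro hj
    exact (ih (by omega)).trans (h j hj)

theorem smono {m ℓ : ℕ} {s : ℕ → Fin m} (h : ∀ i, i + 1 < ℓ → s i < s (i + 1)) :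
    ∀ i j, i < j → j < ℓ → s i < s j := by
  intro i j hij
  induction j, hij using Nat.le_induction with
  | base => intro hj; exact h i hj
  | succ j hij ih =>
    intro hj
    exact (ih (by omega)).trans (h j hj)

theorem pf_CNL : T_CNL := by
  intro m ℓ F g h s t p hF hK hg hgs hh hht hp hdisj hcov
  have g1 := gmono (g := g) (ℓ := ℓ) (fun i hi => (hgs i hi).1)
  have h1 := gmono (g := h) (ℓ := ℓ) (fun i hi => (hht i hi).1)
  have s1 := smono (s := s) (ℓ := ℓ) (fun i hi => (hgs i hi).2.2)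
  have t1 := smono (s := t) (ℓ := ℓ) (fun i hi => (hht i hi).2.2)
  have sm : ∀ i j, i < j → j < ℓ → s i ∈ g j := fun i j hij hj =>
    g1 (i + 1) j hij hj (hgs i (by omega)).2.1
  have tm : ∀ i j, i < j → j < ℓ → t i ∈ h j := fun i j hij hj =>
    h1 (i + 1) j hij hj (hht i (by omega)).2.1
  have sinj : Set.InjOn s (Finset.range ℓ : Set ℕ) := by
    intro a ha b hb hab
    have ha' := Finset.mem_range.1 (Finset.mem_coe.1 ha)
    have hb' := Finset.mem_range.1 (Finset.mem_coe.1 hb)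
    rcases lt_trichotomy a b with hlt | heq | hgt
    · exact absurd hab (ne_of_lt (s1 a b hlt hb'))
    · exact heq
    · exact absurd hab (ne_of_gt (s1 b a hgt ha'))
  have tinj : Set.InjOn t (Finset.range ℓ : Set ℕ) := by
    intro a ha b hb hab
    have ha' := Finset.mem_range.1 (Finset.mem_coe.1 ha)
    have hb' := Finset.mem_range.1 (Finset.mem_coe.1 hb)
    rcases lt_trichotomy a b with hlt | heq | hgt
    · exact absurd hab (ne_of_lt (t1 a b hlt hb'))
    · exact heq
    · exact absurd hab (ne_of_gt (t1 b a hgt ha'))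
  -- common labels
  have com : ∀ a b, a < ℓ → b < ℓ → s a = t b → a < p := by
    intro a b ha hb hab
    by_contra hap
    have e1 : s a ∉ g p := fun hmem => (hg a ha).2 (g1 p a (by omega) ha hmem)
    have e2 : s a ∈ h 0 := by
      have : s a ∈ g p ∪ h 0 := by rw [hcov]; trivial
      exact this.resolve_left e1
    have e3 : t b ∉ h 0 := fun hmem => (hh b hb).2 (h1 0 b (Nat.zero_le _) hb hmem)
    rw [hab] at e2
    exact e3 e2
  have key : ((Finset.range ℓ).image s ∩ (Finset.range ℓ).image t).card ≤ 2 := by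
    by_contra hcard
    push Not at hcard
    set X := (Finset.range ℓ).image s ∩ (Finset.range ℓ).image t with hX
    have hne : X.Nonempty := Finset.card_pos.1 (by omega)
    obtain ⟨y, hy, hyn⟩ : ∃ y ∈ X, y ∉ ({X.min' hne, X.max' hne} : Finset (Fin m)) := by
      by_contra hcon
      push Not at hcon
      have hsub : X ⊆ ({X.min' hne, X.max' hne} : Finset (Fin m)) := fun y hy => hcon y hy
      have := (Finset.card_le_card hsub).trans Finset.card_le_two
      omega
    have hyn' : y ≠ X.min' hne ∧ y ≠ X.max' hne := by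
      constructor
      · intro e; apply hyn; rw [Finset.mem_insert]; exact Or.inl e
      · intro e; apply hyn; rw [Finset.mem_insert, Finset.mem_singleton]; exact Or.inr e
    have hxy : X.min' hne < y := lt_of_le_of_ne (Finset.min'_le _ _ hy) (Ne.symm hyn'.1)
    have hyz : y < X.max' hne := lt_of_le_of_ne (Finset.le_max' _ _ hy) hyn'.2
    have hx := Finset.min'_mem X hne
    have hz := Finset.max'_mem X hne
    generalize X.min' hne = x at hxy hx
    generalize X.max' hne = z at hyz hz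
    have get : ∀ w ∈ X, ∃ a b, a < ℓ ∧ b < ℓ ∧ s a = w ∧ t b = w := by
      intro w hw
      rw [hX, Finset.mem_inter, Finset.mem_image, Finset.mem_image] at hw
      obtain ⟨⟨a, ha, ea⟩, ⟨b, hb, eb⟩⟩ := hw
      exact ⟨a, b, Finset.mem_range.1 ha, Finset.mem_range.1 hb, ea, eb⟩
    obtain ⟨a₁, b₁, ha₁, hb₁, sa₁, tb₁⟩ := get x hx
    obtain ⟨a₂, b₂, ha₂, hb₂, sa₂, tb₂⟩ := get y hy
    obtain ⟨a₃, b₃, ha₃, hb₃, sa₃, tb₃⟩ := get z hz
    have ord : ∀ {u : ℕ → Fin m}, (∀ i j, i < j → j < ℓ → u i < u j) → ∀ a b, a < ℓ → b < ℓ →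
        u a < u b → a < b := by
      intro u hu a b ha hb hlt
      by_contra hc
      rcases lt_or_eq_of_le (not_lt.1 hc) with h' | h'
      · exact lt_asymm hlt (hu b a h' ha)
      · subst h'; exact lt_irrefl _ hlt
    have a12 : a₁ < a₂ := ord s1 _ _ ha₁ ha₂ (by rw [sa₁, sa₂]; exact hxy)
    have a23 : a₂ < a₃ := ord s1 _ _ ha₂ ha₃ (by rw [sa₂, sa₃]; exact hyz)
    have b12 : b₁ < b₂ := ord t1 _ _ hb₁ hb₂ (by rw [tb₁, tb₂]; exact hxy)
    have b23 : b₂ < b₃ := ord t1 _ _ hb₂ hb₃ (by rw [tb₂, tb₃]; exact hyz)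
    have a3p : a₃ < p := com a₃ b₃ ha₃ hb₃ (by rw [sa₃, tb₃])
    have gF : g (a₂ + 1) ∈ F := (hg (a₂ + 1) (by omega)).1
    have hFm : h (b₁ + 1) ∈ F := (hh (b₁ + 1) (by omega)).1
    have hd := hdisj (a₂ + 1) (by omega)
    have x1 : x ∈ g (a₂ + 1) := by rw [← sa₁]; exact sm a₁ (a₂ + 1) (by omega) (by omega)
    have x2 : x ∈ h (b₁ + 1) := by rw [← tb₁]; exact tm b₁ (b₁ + 1) (by omega) (by omega)
    have y1 : y ∈ g (a₂ + 1) := by rw [← sa₂]; exact sm a₂ (a₂ + 1) (by omega) (by omega)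
    have y2 : y ∉ h (b₁ + 1) := by
      rw [← tb₂]
      exact fun hm => (hh b₂ hb₂).2 (h1 (b₁ + 1) b₂ (by omega) hb₂ hm)
    have z1 : z ∉ g (a₂ + 1) := by
      rw [← sa₃]
      exact fun hm => (hg a₃ ha₃).2 (g1 (a₂ + 1) a₃ (by omega) ha₃ hm)
    have z2 : z ∉ h (b₁ + 1) := by
      rw [← tb₃]
      exact fun hm => (hh b₃ hb₃).2 (h1 (b₁ + 1) b₃ (by omega) hb₃ hm)
    rcases hF.cross _ gF _ hFm with c | c | c | c
    · exact y2 (c y1)
    · obtain ⟨k, hk⟩ := hF.ne _ hK
      have hk' : k ∈ g (a₂ + 1) := c (h1 0 (b₁ + 1) (Nat.zero_le _) (by omega) hk)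
      exact Set.disjoint_left.1 hd hk' hk
    · exact Set.disjoint_left.1 c x1 x2
    · have : z ∈ g (a₂ + 1) ∪ h (b₁ + 1) := by rw [c]; trivial
      rcases this with h' | h'
      · exact z1 h'
      · exact z2 h'
  have cs : ((Finset.range ℓ).image s).card = ℓ := by
    rw [Finset.card_image_of_injOn sinj, Finset.card_range]
  have ct : ((Finset.range ℓ).image t).card = ℓ := by
    rw [Finset.card_image_of_injOn tinj, Finset.card_range]
  have cu : ((Finset.range ℓ).image s ∪ (Finset.range ℓ).image t).card ≤ m := by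
    have := Finset.card_le_univ ((Finset.range ℓ).image s ∪ (Finset.range ℓ).image t)
    rwa [Fintype.card_fin] at this
  have cc := Finset.card_union_add_card_inter ((Finset.range ℓ).image s)
    ((Finset.range ℓ).image t)
  omega

end Pool.Agent.H35.WT
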